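import Mathlib

/-!
Strict partitions as row-length functions; degree-preserving bisimulations are trivial.
-/

set_option autoImplicit false

open Finset Function

namespace Pool.Agent.MP_c76eb3_co

/-- Row lengths of a strict partition. -/
def SP (r : ℕ → ℕ) : Prop := ∀ i, r (i + 1) ≤ r i - 1

/-- `s` is a strict partition obtained from `r` by adding one cell. -/
def Cov (r s : ℕ → ℕ) : Prop := SP s ∧ ∃ i, s = update r i (r i + 1)

noncomputable def deg (r : ℕ → ℕ) : ℕ := {s | Cov r s}.ncard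

def sz (r : ℕ → ℕ) : ℕ := ∑ i ∈ range (r 0), r i

def stair (j : ℕ) : ℕ → ℕ := fun i => j - i

def cons (N : ℕ) (a : ℕ → ℕ) : ℕ → ℕ
  | 0 => N
  | i + 1 => a i

lemma SP.le_sub {r : ℕ → ℕ} (h : SP r) (i k : ℕ) : r (i + k) ≤ r i - k := by
  induction k with
  | zero => simp
  | succ k ih => have := h (i + k); rw [← add_assoc]; omega

lemma SP.le_zero {r : ℕ → ℕ} (h : SP r) (k : ℕ) : r k ≤ r 0 - k := by
  simpa using h.le_sub 0 k

lemma SP.sum_eq {r : ℕ → ℕ} (h : SP r) {n : ℕ} (hn : r 0 ≤ n) : ∑ i ∈ range n, r i = sz r := by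
  rw [sz]
  refine (sum_subset (range_subset_range.mpr hn) fun i _ hi => ?_).symm
  have := h.le_zero i
  rw [mem_range] at hi
  omega

lemma SP.update_iff {r : ℕ → ℕ} (h : SP r) (i : ℕ) :
    SP (update r i (r i + 1)) ↔ i = 0 ∨ r i + 1 ≤ r (i - 1) - 1 := by
  constructor
  · intro h1
    rcases i with _ | i
    · exact Or.inl rfl
    · right
      have := h1 i
      simpa using this
  · intro h1 k
    have h2 := h k
    by_cases e1 : k + 1 = i
    · subst e1
      simp at h1 ⊢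
      exact h1
    · by_cases e2 : k = i
      · subst e2
        simp
        omega
      · rw [update_of_ne e1, update_of_ne e2]
        exact h2

lemma Cov.sz_eq {r s : ℕ → ℕ} (hr : SP r) (h : Cov r s) : sz s = sz r + 1 := by
  obtain ⟨hs, i, rfl⟩ := h
  have h0 : r 0 ≤ r 0 + 1 + i := by omega
  have h1 : update r i (r i + 1) 0 ≤ r 0 + 1 + i := by
    by_cases e : 0 = i
    · subst e; simp
    · rw [update_of_ne e]; omega
  have hi : i ∈ range (r 0 + 1 + i) := by simp
  rw [← hs.sum_eq h1, ← hr.sum_eq h0, sum_update_of_mem hi, ← sum_sdiff_eq_sub_aux hi]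
  omega
where
  sum_sdiff_eq_sub_aux {n i : ℕ} {r : ℕ → ℕ} (hi : i ∈ range n) :
      r i + ∑ x ∈ range n \ {i}, r x = ∑ x ∈ range n, r x := by
    rw [sdiff_singleton_eq_erase, add_sum_erase _ _ hi]

lemma Cov.zero_le {r s : ℕ → ℕ} (h : Cov r s) : r 0 ≤ s 0 := by
  obtain ⟨_, i, rfl⟩ := h
  by_cases e : 0 = i
  · subst e; simp
  · rw [update_of_ne e]

lemma sp_stair (j : ℕ) : SP (stair j) := fun i => by simp only [stair]; omega

lemma sz_stair_succ (j : ℕ) : sz (stair (j + 1)) = sz (stair j) + (j + 1) := by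
  simp only [sz, stair, Nat.sub_zero]
  rw [sum_range_succ']
  simp

lemma sz_stair_mono {j k : ℕ} (h : j ≤ k) : sz (stair j) ≤ sz (stair k) := by
  induction h with
  | refl => exact le_rfl
  | step _ ih => rw [sz_stair_succ]; omega

lemma SP.sz_le {r : ℕ → ℕ} (h : SP r) {j : ℕ} (hj : r 0 ≤ j) : sz r ≤ sz (stair j) := by
  rw [← h.sum_eq hj]
  refine sum_le_sum fun i _ => ?_
  have := h.le_zero i
  simp only [stair]
  omega

lemma exists_cov_of_ne {r : ℕ → ℕ} (h : SP r) {j : ℕ} (hj : r 0 ≤ j) (hne : r ≠ stair j) :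
    ∃ i, SP (update r i (r i + 1)) ∧ update r i (r i + 1) 0 ≤ j ∧ (r 0 = j → i ≠ 0) := by
  classical
  have hex : ∃ i, r i ≠ j - i := by
    by_contra hcon
    push Not at hcon
    exact hne (funext hcon)
  have h1 := Nat.find_spec hex
  have h2 : ∀ k < Nat.find hex, r k = j - k := fun k hk => by simpa using Nat.find_min hex hk
  generalize Nat.find hex = i at h1 h2
  have h3 := h.le_zero i
  refine ⟨i, (h.update_iff i).mpr ?_, ?_, ?_⟩
  · rcases i with _ | i
    · exact Or.inl rfl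
    · right
      have := h2 i (by omega)
      simp only [Nat.add_sub_cancel]
      omega
  · by_cases e : 0 = i
    · subst e; simp; omega
    · rw [update_of_ne e]; exact hj
  · rintro h4 rfl
    omega

lemma reach (j k : ℕ) : ∀ r : ℕ → ℕ, SP r → r 0 ≤ j → sz r + k = sz (stair j) →
    Relation.ReflTransGen Cov r (stair j) := by
  induction k with
  | zero =>
    intro r h hj hk
    by_cases hne : r = stair j
    · rw [hne]
    · obtain ⟨i, h1, h2, -⟩ := exists_cov_of_ne h hj hne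
      have h3 := Cov.sz_eq h ⟨h1, i, rfl⟩
      have h4 := h1.sz_le h2
      omega
  | succ k ih =>
    intro r h hj hk
    have hne : r ≠ stair j := by rintro rfl; omega
    obtain ⟨i, h1, h2, -⟩ := exists_cov_of_ne h hj hne
    have h3 := Cov.sz_eq h ⟨h1, i, rfl⟩
    exact Relation.ReflTransGen.head ⟨h1, i, rfl⟩ (ih _ h1 h2 (by omega))

lemma update_inj (r : ℕ → ℕ) : Injective fun i => update r i (r i + 1) := by
  intro i k h
  by_contra hne
  have := congrFun h i
  simp [update_of_ne hne] at this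

lemma deg_eq (r : ℕ → ℕ) : deg r = {i | SP (update r i (r i + 1))}.ncard := by
  rw [deg, ← Set.ncard_image_of_injective _ (update_inj r)]
  congr 1
  ext s
  constructor
  · rintro ⟨h, i, rfl⟩; exact ⟨i, h, rfl⟩
  · rintro ⟨i, h, rfl⟩; exact ⟨h, i, rfl⟩

lemma SP.finite {r : ℕ → ℕ} (h : SP r) : {i | SP (update r i (r i + 1))}.Finite := by
  refine (Set.finite_le_nat (r 0)).subset fun i hi => ?_
  have h1 := (h.update_iff i).mp hi
  have h2 := h.le_zero (i - 1)
  simp only [Set.mem_ofPred_eq]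
  omega

lemma deg_stair (j : ℕ) : deg (stair j) = 1 := by
  rw [deg_eq, Set.ncard_eq_one]
  refine ⟨0, ?_⟩
  ext i
  rw [Set.mem_ofPred_eq, (sp_stair j).update_iff]
  simp only [stair, Set.mem_singleton_iff]
  omega

lemma eq_stair_of_deg {r : ℕ → ℕ} (h : SP r) (hd : deg r = 1) : r = stair (r 0) := by
  by_contra hne
  obtain ⟨i, h1, -, h2⟩ := exists_cov_of_ne h le_rfl hne
  rw [deg_eq, Set.ncard_eq_one] at hd
  obtain ⟨a, ha⟩ := hd
  have e1 : i ∈ ({a} : Set ℕ) := ha ▸ h1
  have e2 : 0 ∈ ({a} : Set ℕ) := ha ▸ (h.update_iff 0).mpr (Or.inl rfl)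
  exact h2 rfl (e1.trans e2.symm)

/-- Symmetric degree-preserving bisimulations. -/
structure IsBisim (R : (ℕ → ℕ) → (ℕ → ℕ) → Prop) : Prop where
  symm : ∀ a b, R a b → R b a
  sp : ∀ a b, R a b → SP a
  deg_eq : ∀ a b, R a b → deg a = deg b
  step : ∀ a b a', R a b → Cov a a' → ∃ b', Cov b b' ∧ R a' b'

namespace IsBisim

variable {R : (ℕ → ℕ) → (ℕ → ℕ) → Prop}

lemma steps (h : IsBisim R) {a b a' : ℕ → ℕ} (hab : R a b)
    (hp : Relation.ReflTransGen Cov a a') :
    ∃ b', R a' b' ∧ b 0 ≤ b' 0 ∧ sz b' + sz a = sz a' + sz b := by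
  induction hp with
  | refl => exact ⟨b, hab, le_rfl, add_comm _ _⟩
  | tail _ hc ih =>
    obtain ⟨b', h1, h2, h3⟩ := ih
    obtain ⟨b'', h4, h5⟩ := h.step _ _ _ h1 hc
    have e1 := hc.sz_eq (h.sp _ _ h1)
    have e2 := h4.sz_eq (h.sp _ _ (h.symm _ _ h1))
    exact ⟨b'', h5, h2.trans h4.zero_le, by omega⟩

lemma to_stair (h : IsBisim R) {a b : ℕ → ℕ} (hab : R a b) {j : ℕ} (hj : a 0 ≤ j) :
    ∃ k, R (stair j) (stair k) ∧ b 0 ≤ k ∧ sz (stair k) + sz a = sz (stair j) + sz b := by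
  have ha := h.sp _ _ hab
  obtain ⟨n, hn⟩ := Nat.exists_eq_add_of_le (ha.sz_le hj)
  obtain ⟨b', h1, h2, h3⟩ := h.steps hab (reach j n a ha hj hn.symm)
  have h4 := eq_stair_of_deg (h.sp _ _ (h.symm _ _ h1)) (by rw [← h.deg_eq _ _ h1, deg_stair])
  exact ⟨b' 0, h4 ▸ h1, h2, h4 ▸ h3⟩

lemma stair_le (h : IsBisim R) {i j : ℕ} (hij : R (stair i) (stair j)) : j ≤ i := by
  obtain ⟨k, -, -, h3⟩ := h.to_stair hij (j := i + 1) (by simp [stair])
  rw [sz_stair_succ] at h3
  have h4 : j + 1 ≤ k := by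
    by_contra hc
    have := sz_stair_mono (show k ≤ j by omega)
    omega
  have := sz_stair_mono h4
  rw [sz_stair_succ] at this
  omega

lemma zero_le (h : IsBisim R) {a b : ℕ → ℕ} (hab : R a b) : b 0 ≤ a 0 := by
  obtain ⟨k, h1, h2, -⟩ := h.to_stair hab le_rfl
  exact h2.trans (h.stair_le h1)

lemma zero_eq (h : IsBisim R) {a b : ℕ → ℕ} (hab : R a b) : a 0 = b 0 :=
  le_antisymm (h.zero_le (h.symm _ _ hab)) (h.zero_le hab)

end IsBisim

lemma update_cons_zero (N : ℕ) (a : ℕ → ℕ) :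
    update (cons N a) 0 (cons N a 0 + 1) = cons (N + 1) a := by
  funext i
  rcases i with _ | i <;> simp [cons]

lemma update_cons_succ (N : ℕ) (a : ℕ → ℕ) (i : ℕ) :
    update (cons N a) (i + 1) (cons N a (i + 1) + 1) = cons N (update a i (a i + 1)) := by
  funext k
  rcases k with _ | k
  · simp [cons]
  · by_cases e : k = i
    · subst e; simp [cons]
    · simp [cons, update_of_ne e, update_of_ne (show k + 1 ≠ i + 1 by omega)]

lemma sp_cons (N : ℕ) (a : ℕ → ℕ) : SP (cons N a) ↔ a 0 ≤ N - 1 ∧ SP a := by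
  constructor
  · intro h
    exact ⟨h 0, fun i => h (i + 1)⟩
  · rintro ⟨h1, h2⟩ i
    rcases i with _ | i
    · exact h1
    · exact h2 i

lemma update_zero_le (a : ℕ → ℕ) (i : ℕ) : update a i (a i + 1) 0 ≤ a 0 + 1 := by
  by_cases e : 0 = i
  · subst e; simp
  · rw [update_of_ne e]; omega

lemma deg_cons {N : ℕ} {a : ℕ → ℕ} (ha : SP a) (hN : a 0 + 2 ≤ N) :
    deg (cons N a) = deg a + 1 := by
  rw [deg_eq, deg_eq]
  have : {i | SP (update (cons N a) i (cons N a i + 1))}
      = insert 0 (Nat.succ '' {i | SP (update a i (a i + 1))}) := by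
    ext i
    rcases i with _ | i
    · simp only [Set.mem_ofPred_eq, update_cons_zero, sp_cons, Set.mem_insert_iff, true_or, iff_true]
      exact ⟨by omega, ha⟩
    · have := update_zero_le a i
      simp only [Set.mem_ofPred_eq, update_cons_succ, sp_cons]
      constructor
      · rintro ⟨-, h⟩
        exact Or.inr ⟨i, h, rfl⟩
      · rintro (h | ⟨k, hk, h⟩)
        · omega
        · obtain rfl : k = i := by simpa using h
          exact ⟨by omega, hk⟩
  rw [this, Set.ncard_insert_of_notMem (by simp) (ha.finite.image _),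
    Set.ncard_image_of_injective _ Nat.succ_injective]

namespace IsBisim

variable {R : (ℕ → ℕ) → (ℕ → ℕ) → Prop}

lemma bump (h : IsBisim R) {N : ℕ} {a b : ℕ → ℕ} (hab : R (cons N a) (cons N b)) :
    R (cons (N + 1) a) (cons (N + 1) b) := by
  have ha := (sp_cons N a).mp (h.sp _ _ hab)
  obtain ⟨b', ⟨-, i, rfl⟩, h2⟩ := h.step _ _ (cons (N + 1) a) hab
    ⟨(sp_cons _ _).mpr ⟨by omega, ha.2⟩, 0, (update_cons_zero N a).symm⟩
  rcases i with _ | i
  · rwa [update_cons_zero] at h2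
  · have := h.zero_eq h2
    rw [update_cons_succ] at this
    simp [cons] at this

lemma tail (h : IsBisim R) : IsBisim fun a b => ∃ N, R (cons N a) (cons N b) where
  symm := fun a b ⟨N, hN⟩ => ⟨N, h.symm _ _ hN⟩
  sp := fun a b ⟨N, hN⟩ => ((sp_cons N a).mp (h.sp _ _ hN)).2
  deg_eq := fun a b ⟨N, hN⟩ => by
    have ha := (sp_cons N a).mp (h.sp _ _ hN)
    have hb := (sp_cons N b).mp (h.sp _ _ (h.symm _ _ hN))
    have := h.deg_eq _ _ (h.bump (h.bump hN))
    rw [deg_cons ha.2 (by omega), deg_cons hb.2 (by omega)] at this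
    omega
  step := fun a b a' ⟨N, hN⟩ ⟨ha', i, hi⟩ => by
    subst hi
    have ha := (sp_cons N a).mp (h.sp _ _ hN)
    have h0 := update_zero_le a i
    obtain ⟨b', ⟨h1, k, rfl⟩, h2⟩ := h.step _ _ (cons (N + 1 + 1) (update a i (a i + 1)))
      (h.bump (h.bump hN))
      ⟨(sp_cons _ _).mpr ⟨by omega, ha'⟩, i + 1, (update_cons_succ _ a i).symm⟩
    rcases k with _ | k
    · have := h.zero_eq h2
      rw [update_cons_zero] at this
      simp [cons] at this
    · rw [update_cons_succ] at h1 h2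
      exact ⟨_, ⟨((sp_cons _ _).mp h1).2, k, rfl⟩, _, h2⟩

end IsBisim

lemma eq_cons (a : ℕ → ℕ) : a = cons (a 0) fun i => a (i + 1) := by
  funext i
  rcases i with _ | i <;> rfl

theorem IsBisim.eq_apply (i : ℕ) : ∀ {R : (ℕ → ℕ) → (ℕ → ℕ) → Prop}, IsBisim R →
    ∀ {a b : ℕ → ℕ}, R a b → a i = b i := by
  induction i with
  | zero => exact fun h _ _ hab => h.zero_eq hab
  | succ i ih =>
    intro R h a b hab
    refine ih h.tail (a := fun i => a (i + 1)) (b := fun i => b (i + 1)) ⟨a 0, ?_⟩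
    rw [← eq_cons, h.zero_eq hab, ← eq_cons]
    exact hab

theorem IsBisim.eq {R : (ℕ → ℕ) → (ℕ → ℕ) → Prop} (h : IsBisim R) {a b : ℕ → ℕ} (hab : R a b) :
    a = b := funext fun i => IsBisim.eq_apply i h hab

end Pool.Agent.MP_c76eb3_co
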