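import Mathlib

/-!
Shifted standard Young tableaux and the parent-child relation of their tree.
-/

set_option autoImplicit false

namespace Pool.Agent.MP_c76eb3_co

/-- The shifted diagram of the list of parts `l = [λ₁, …, λ_ℓ]`: the cells `(i, j)` with
`1 ≤ i ≤ ℓ` and `i ≤ j ≤ i + λ_i - 1`. -/
def shiftedCells (l : List ℕ) : Set (ℕ × ℕ) :=
  {c | 1 ≤ c.1 ∧ c.1 ≤ l.length ∧ c.1 ≤ c.2 ∧ c.2 < c.1 + l.getD (c.1 - 1) 0}

/-- A shifted standard Young tableau: a strict partition and a bijective filling of its shifted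
diagram by `1, …, |λ|`, increasing along rows and columns (and `0` off the diagram). -/
structure ShiftedSYT where
  parts : List ℕ
  parts_pos : ∀ a ∈ parts, 0 < a
  parts_strict : parts.Pairwise (· > ·)
  entry : ℕ × ℕ → ℕ
  bijOn : Set.BijOn entry (shiftedCells parts) (Set.Icc 1 parts.sum)
  zero_off : ∀ c, c ∉ shiftedCells parts → entry c = 0
  row_lt : ∀ i j j', (i, j) ∈ shiftedCells parts → (i, j') ∈ shiftedCells parts → j < j' →
    entry (i, j) < entry (i, j')
  col_lt : ∀ i i' j, (i, j) ∈ shiftedCells parts → (i', j) ∈ shiftedCells parts → i < i' →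
    entry (i, j) < entry (i', j)

/-- `T'` is a child of `T`: `T'` has one more cell and deleting the cell of `T'` that contains
the largest entry gives `T`. -/
def IsChild (T T' : ShiftedSYT) : Prop :=
  T'.parts.sum = T.parts.sum + 1 ∧
  shiftedCells T.parts = {c | c ∈ shiftedCells T'.parts ∧ T'.entry c ≠ T'.parts.sum} ∧
  ∀ c ∈ shiftedCells T.parts, T.entry c = T'.entry c

end Pool.Agent.MP_c76eb3_co
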