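import Mathlib
import Pool.Agent.MP_c76eb3_co.Defs
import Pool.Agent.MP_c76eb3_co.Core

/-!
From tableaux to shapes.
-/

set_option autoImplicit false

open Finset Function

namespace Pool.Agent.MP_c76eb3_co

def rows (l : List ℕ) : ℕ → ℕ := fun i => l.getD i 0

lemma rows_cons (a : ℕ) (l : List ℕ) : rows (a :: l) = cons a (rows l) := by
  funext i
  rcases i with _ | i <;> simp [rows, cons]

lemma rows_of_le {l : List ℕ} {i : ℕ} (h : l.length ≤ i) : rows l i = 0 :=
  List.getD_eq_default _ _ h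

lemma mem_cells (l : List ℕ) (i j : ℕ) :
    (i, j) ∈ shiftedCells l ↔ 1 ≤ i ∧ i ≤ j ∧ j < i + rows l (i - 1) := by
  constructor
  · rintro ⟨h1, -, h2, h3⟩
    exact ⟨h1, h2, h3⟩
  · rintro ⟨h1, h2, h3⟩
    refine ⟨h1, ?_, h2, h3⟩
    by_contra hc
    have := rows_of_le (l := l) (i := i - 1) (by simp only at hc; omega)
    omega

lemma sp_rows : ∀ l : List ℕ, (∀ a ∈ l, 0 < a) → l.Pairwise (· > ·) → SP (rows l)
  | [], _, _ => fun i => by simp [rows]
  | a :: l, h1, h2 => by
    rw [rows_cons, sp_cons]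
    rw [List.pairwise_cons] at h2
    refine ⟨?_, sp_rows l (fun b hb => h1 b (List.mem_cons_of_mem _ hb)) h2.2⟩
    rcases l with _ | ⟨b, l⟩
    · simp [rows]
    · have := h2.1 b List.mem_cons_self
      simp only [rows, List.getD_cons_zero]
      omega

lemma rows_inj : ∀ l l' : List ℕ, (∀ a ∈ l, 0 < a) → (∀ a ∈ l', 0 < a) → rows l = rows l' → l = l'
  | [], [], _, _, _ => rfl
  | [], b :: l', _, h2, h => by
    have := congrFun h 0
    have := h2 b List.mem_cons_self
    simp [rows] at *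
    omega
  | a :: l, [], h1, _, h => by
    have := congrFun h 0
    have := h1 a List.mem_cons_self
    simp [rows] at *
    omega
  | a :: l, b :: l', h1, h2, h => by
    rw [rows_cons, rows_cons] at h
    have e1 : a = b := congrFun h 0
    have e2 : rows l = rows l' := funext fun i => congrFun h (i + 1)
    rw [e1, rows_inj l l' (fun c hc => h1 c (List.mem_cons_of_mem _ hc))
      (fun c hc => h2 c (List.mem_cons_of_mem _ hc)) e2]

lemma sum_rows : ∀ (l : List ℕ) (n : ℕ), l.length ≤ n → ∑ i ∈ range n, rows l i = l.sum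
  | [], n, _ => by simp [rows]
  | a :: l, 0, h => by simp at h
  | a :: l, n + 1, h => by
    rw [sum_range_succ', rows_cons, List.sum_cons, ← sum_rows l n (by simpa using h), add_comm]
    rfl

lemma sz_rows {l : List ℕ} (h : SP (rows l)) : sz (rows l) = l.sum := by
  rw [← h.sum_eq (le_max_left _ l.length), sum_rows l _ (le_max_right _ _)]

lemma exists_list (n : ℕ) : ∀ s : ℕ → ℕ, SP s → s 0 ≤ n →
    ∃ l : List ℕ, (∀ a ∈ l, 0 < a) ∧ l.Pairwise (· > ·) ∧ rows l = s := by
  induction n with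
  | zero =>
    intro s hs h0
    refine ⟨[], by simp, by simp, funext fun i => ?_⟩
    have := hs.le_zero i
    simp [rows]
    omega
  | succ n ih =>
    intro s hs h0
    by_cases h : s 0 ≤ n
    · exact ih s hs h
    rw [eq_cons s] at hs
    have h1 := (sp_cons _ _).mp hs
    obtain ⟨l, h2, h3, h4⟩ := ih _ h1.2 (by have := h1.1; omega)
    refine ⟨s 0 :: l, ?_, ?_, by rw [rows_cons, h4, ← eq_cons]⟩
    · intro a ha
      rcases List.mem_cons.mp ha with rfl | ha
      · omega
      · exact h2 a ha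
    · rw [List.pairwise_cons]
      refine ⟨fun a ha => ?_, h3⟩
      obtain ⟨i, hi, rfl⟩ := List.mem_iff_getElem.mp ha
      have e1 : rows l i = l[i] := List.getD_eq_getElem _ _ hi
      have e2 := h1.2.le_zero i
      have e3 := h1.1
      rw [← e1, h4]
      simp only at e2 e3 ⊢
      omega

namespace ShiftedSYT

lemma ext' {T T' : ShiftedSYT} (h1 : T.parts = T'.parts) (h2 : T.entry = T'.entry) : T = T' := by
  cases T; cases T'; simp_all

lemma sp (T : ShiftedSYT) : SP (rows T.parts) := sp_rows _ T.parts_pos T.parts_strict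

lemma le_sum (T : ShiftedSYT) {c : ℕ × ℕ} (h : c ∈ shiftedCells T.parts) :
    T.entry c ≤ T.parts.sum := (T.bijOn.mapsTo h).2

lemma exists_top (T : ShiftedSYT) (h : T.parts.sum ≠ 0) : ∃ i j, (i + 1, j) ∈ shiftedCells T.parts ∧
    T.entry (i + 1, j) = T.parts.sum ∧
    ∀ c ∈ shiftedCells T.parts, T.entry c = T.parts.sum → c = (i + 1, j) := by
  obtain ⟨⟨i, j⟩, h1, h2⟩ := T.bijOn.surjOn (show T.parts.sum ∈ Set.Icc 1 T.parts.sum from
    ⟨by omega, le_rfl⟩)
  obtain ⟨i, rfl⟩ : ∃ i', i = i' + 1 := ⟨i - 1, by have := h1.1; simp only at this; omega⟩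
  exact ⟨i, j, h1, h2, fun c hc h3 => T.bijOn.injOn hc h1 (h3.trans h2.symm)⟩

end ShiftedSYT

lemma IsChild.cov {T T' : ShiftedSYT} (h : IsChild T T') : Cov (rows T.parts) (rows T'.parts) := by
  obtain ⟨h1, h2, -⟩ := h
  obtain ⟨i, j, h3, h4, h5⟩ := T'.exists_top (by omega)
  have key : ∀ k j', (k + 1 ≤ j' ∧ j' < k + 1 + rows T.parts k) ↔
      ((k + 1 ≤ j' ∧ j' < k + 1 + rows T'.parts k) ∧ ¬(k = i ∧ j' = j)) := by
    intro k j'
    have e1 := mem_cells T.parts (k + 1) j'
    have e2 := mem_cells T'.parts (k + 1) j'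
    simp only [Nat.add_sub_cancel, Nat.le_add_left, true_and] at e1 e2
    rw [← e1, ← e2, h2]
    constructor
    · rintro ⟨a1, a2⟩
      refine ⟨a1, ?_⟩
      rintro ⟨rfl, rfl⟩
      exact a2 h4
    · rintro ⟨a1, a2⟩
      refine ⟨a1, fun a3 => a2 ?_⟩
      simpa using h5 _ a1 a3
  rw [mem_cells, Nat.add_sub_cancel] at h3
  refine ⟨T'.sp, i, funext fun k => ?_⟩
  have k1 := key k (k + 1 + rows T.parts k)
  have k2 := key k (k + 1 + rows T'.parts k)
  by_cases e : k = i
  · subst e
    have k3 := key k j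
    have k4 := key k (k + rows T'.parts k)
    have k5 := key k (k + 1 + rows T.parts k + 1)
    rw [update_self]
    omega
  · rw [update_of_ne e]
    omega

lemma cells_update {l l' : List ℕ} {i : ℕ} (h : rows l' = update (rows l) i (rows l i + 1))
    (c : ℕ × ℕ) : c ∈ shiftedCells l' ↔ c = (i + 1, i + 1 + rows l i) ∨ c ∈ shiftedCells l := by
  obtain ⟨k, j⟩ := c
  rw [mem_cells, mem_cells, h, Prod.mk.injEq]
  by_cases e : k - 1 = i
  · rw [e, update_self]; omega
  · rw [update_of_ne e]; omega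

lemma not_mem_cells (l : List ℕ) (i : ℕ) : (i + 1, i + 1 + rows l i) ∉ shiftedCells l := by
  rw [mem_cells, Nat.add_sub_cancel]; omega

lemma exists_child (T : ShiftedSYT) {s : ℕ → ℕ} (h : Cov (rows T.parts) s) :
    ∃ T', IsChild T T' ∧ rows T'.parts = s := by
  have hsz := h.sz_eq T.sp
  obtain ⟨hs, i, hi⟩ := h
  obtain ⟨l, h1, h2, h3⟩ := exists_list _ s hs le_rfl
  have hsum : l.sum = T.parts.sum + 1 := by
    rw [← sz_rows (h3 ▸ hs), h3, hsz, sz_rows T.sp]
  have hc := cells_update (h3.trans hi)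
  have hn := not_mem_cells T.parts i
  set c0 : ℕ × ℕ := (i + 1, i + 1 + rows T.parts i) with hc0
  have hne : ∀ c ∈ shiftedCells T.parts, c ≠ c0 := fun c hc e => hn (e ▸ hc)
  have hval : ∀ c ∈ shiftedCells T.parts, update T.entry c0 (T.parts.sum + 1) c = T.entry c :=
    fun c hc => update_of_ne (hne c hc) _ _
  have hlt : ∀ c c', c ∈ shiftedCells T.parts → c' ∈ shiftedCells l →
      (c' ∈ shiftedCells T.parts → T.entry c < T.entry c') →
      update T.entry c0 (T.parts.sum + 1) c < update T.entry c0 (T.parts.sum + 1) c' := by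
    intro c c' a1 a2 a3
    rw [hval c a1]
    rcases (hc c').mp a2 with rfl | a4
    · rw [update_self]; exact Nat.lt_succ_of_le (T.le_sum a1)
    · rw [hval c' a4]; exact a3 a4
  refine ⟨⟨l, h1, h2, update T.entry c0 (T.parts.sum + 1), ?_, ?_, ?_, ?_⟩, ⟨hsum, ?_, ?_⟩, h3⟩
  · have e1 : shiftedCells l = insert c0 (shiftedCells T.parts) := Set.ext hc
    have e2 : Set.Icc 1 l.sum = insert (T.parts.sum + 1) (Set.Icc 1 T.parts.sum) := by
      ext x; simp only [hsum, Set.mem_Icc, Set.mem_insert_iff]; omega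
    rw [e1, e2]
    have := (T.bijOn.congr (fun c hc => (hval c hc).symm)).insert (a := c0) (by simp)
    rwa [update_self] at this
  · intro c a1
    rw [hc, not_or] at a1
    rw [update_of_ne a1.1, T.zero_off c a1.2]
  · intro k j j' a1 a2 a3
    rcases (hc _).mp a1 with a4 | a4
    · exfalso
      obtain ⟨rfl, rfl⟩ := Prod.mk.inj a4
      rw [mem_cells, h3, hi, Nat.add_sub_cancel, update_self] at a2
      omega
    · exact hlt _ _ a4 a2 fun a5 => T.row_lt _ _ _ a4 a5 a3
  · intro k k' j a1 a2 a3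
    rcases (hc _).mp a1 with a4 | a4
    · exfalso
      obtain ⟨rfl, rfl⟩ := Prod.mk.inj a4
      rw [mem_cells, h3, hi, update_of_ne (by omega)] at a2
      have := T.sp.le_sub i (k' - 1 - i)
      rw [show i + (k' - 1 - i) = k' - 1 by omega] at this
      omega
    · exact hlt _ _ a4 a2 fun a5 => T.col_lt _ _ _ a4 a5 a3
  · ext c
    simp only [Set.mem_ofPred_eq, hc, hsum]
    constructor
    · intro a1
      refine ⟨Or.inr a1, ?_⟩
      rw [hval c a1]
      exact Nat.ne_of_lt (Nat.lt_succ_of_le (T.le_sum a1))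
    · rintro ⟨rfl | a1, a2⟩
      · exact absurd (update_self _ _ _) a2
      · exact a1
  · exact fun c a1 => (hval c a1).symm

lemma child_unique {T T₁ T₂ : ShiftedSYT} (h1 : IsChild T T₁) (h2 : IsChild T T₂)
    (h : rows T₁.parts = rows T₂.parts) : T₁ = T₂ := by
  have hp := rows_inj _ _ T₁.parts_pos T₂.parts_pos h
  refine ShiftedSYT.ext' hp (funext fun c => ?_)
  by_cases a1 : c ∈ shiftedCells T.parts
  · rw [← h1.2.2 c a1, ← h2.2.2 c a1]
  by_cases a2 : c ∈ shiftedCells T₁.parts
  · have b1 : T₁.entry c = T₁.parts.sum := by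
      by_contra hc; exact a1 (h1.2.1 ▸ ⟨a2, hc⟩)
    have b2 : T₂.entry c = T₂.parts.sum := by
      by_contra hc; exact a1 (h2.2.1 ▸ ⟨hp ▸ a2, hc⟩)
    rw [b1, b2, hp]
  · rw [T₁.zero_off c a2, T₂.zero_off c (hp ▸ a2)]

lemma rows_eq_of_cells {l l' : List ℕ} (h : shiftedCells l = shiftedCells l') :
    rows l = rows l' := by
  funext k
  have k1 := mem_cells l (k + 1) (k + 1 + rows l' k)
  have k2 := mem_cells l' (k + 1) (k + 1 + rows l' k)
  have k3 := mem_cells l (k + 1) (k + 1 + rows l k)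
  have k4 := mem_cells l' (k + 1) (k + 1 + rows l k)
  rw [h, k2] at k1
  rw [h, k4] at k3
  simp only [Nat.add_sub_cancel] at k1 k3
  omega

lemma parent_unique {T₁ T₂ T : ShiftedSYT} (h1 : IsChild T₁ T) (h2 : IsChild T₂ T) : T₁ = T₂ := by
  have hc : shiftedCells T₁.parts = shiftedCells T₂.parts := h1.2.1.trans h2.2.1.symm
  refine ShiftedSYT.ext' (rows_inj _ _ T₁.parts_pos T₂.parts_pos (rows_eq_of_cells hc))
    (funext fun c => ?_)
  by_cases a1 : c ∈ shiftedCells T₁.parts
  · rw [h1.2.2 c a1, h2.2.2 c (hc ▸ a1)]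
  · rw [T₁.zero_off c a1, T₂.zero_off c (hc ▸ a1)]

lemma root_unique {T₁ T₂ : ShiftedSYT} (h1 : T₁.parts.sum = 0) (h2 : T₂.parts.sum = 0) :
    T₁ = T₂ := by
  have key : ∀ T : ShiftedSYT, T.parts.sum = 0 → ∀ c, c ∉ shiftedCells T.parts := by
    intro T h c hc
    have := T.bijOn.mapsTo hc
    rw [h, Set.mem_Icc] at this
    omega
  have hc : shiftedCells T₁.parts = shiftedCells T₂.parts :=
    Set.ext fun c => iff_of_false (key _ h1 c) (key _ h2 c)
  refine ShiftedSYT.ext' (rows_inj _ _ T₁.parts_pos T₂.parts_pos (rows_eq_of_cells hc))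
    (funext fun c => ?_)
  rw [T₁.zero_off c (key _ h1 c), T₂.zero_off c (key _ h2 c)]

lemma exists_parent (T : ShiftedSYT) (h : T.parts.sum ≠ 0) : ∃ P, IsChild P T := by
  obtain ⟨i, j, h3, h4, h5⟩ := T.exists_top h
  have h6 := (mem_cells _ _ _).mp h3
  rw [Nat.add_sub_cancel] at h6
  have hj : j = i + rows T.parts i := by
    by_contra hc
    have a1 : (i + 1, j + 1) ∈ shiftedCells T.parts := by
      rw [mem_cells, Nat.add_sub_cancel]; omega
    have a2 := T.row_lt _ _ _ h3 a1 (Nat.lt_succ_self j)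
    have a3 := T.le_sum a1
    omega
  have hb : rows T.parts (i + 1) ≤ rows T.parts i - 1 - 1 := by
    by_contra hc
    have a0 := T.sp i
    have a1 : (i + 2, j) ∈ shiftedCells T.parts := by
      rw [mem_cells, show i + 2 - 1 = i + 1 from rfl]; omega
    have a2 := T.col_lt _ _ _ h3 a1 (by omega)
    have a3 := T.le_sum a1
    omega
  have hs : SP (update (rows T.parts) i (rows T.parts i - 1)) := by
    intro k
    have a0 := T.sp k
    by_cases e1 : k + 1 = i
    · subst e1; simp; omega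
    · by_cases e2 : k = i
      · subst e2; simp; omega
      · rw [update_of_ne e1, update_of_ne e2]; exact a0
  obtain ⟨l, h1, h2, hl⟩ := exists_list _ _ hs le_rfl
  have hli : rows l i = rows T.parts i - 1 := by rw [hl, update_self]
  have hup : rows T.parts = update (rows l) i (rows l i + 1) := by
    rw [hli, hl, update_idem, show rows T.parts i - 1 + 1 = rows T.parts i by omega, update_eq_self]
  have hsum : T.parts.sum = l.sum + 1 := by
    rw [← sz_rows T.sp, ← sz_rows (hl ▸ hs)]
    exact Cov.sz_eq (hl ▸ hs) ⟨T.sp, i, hup⟩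
  have hc := cells_update hup
  have hn := not_mem_cells l i
  rw [show i + 1 + rows l i = j by omega] at hc hn
  have hne : ∀ c ∈ shiftedCells l, c ≠ (i + 1, j) := fun c hc e => hn (e ▸ hc)
  have hval : ∀ c ∈ shiftedCells l, update T.entry (i + 1, j) 0 c = T.entry c :=
    fun c hc => update_of_ne (hne c hc) _ _
  have hsub : ∀ c ∈ shiftedCells l, c ∈ shiftedCells T.parts := fun c a => (hc c).mpr (Or.inr a)
  refine ⟨⟨l, h1, h2, update T.entry (i + 1, j) 0, ?_, ?_, ?_, ?_⟩, hsum, ?_, hval⟩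
  · refine Set.BijOn.congr ⟨fun c a => ?_, T.bijOn.injOn.mono hsub, fun x a => ?_⟩
      (fun c hc => (hval c hc).symm)
    · have a1 := T.bijOn.mapsTo (hsub c a)
      have a2 : T.entry c ≠ T.parts.sum := fun e => hne c a (h5 c (hsub c a) e)
      rw [Set.mem_Icc] at a1 ⊢
      omega
    · rw [Set.mem_Icc] at a
      obtain ⟨c, a1, a2⟩ := T.bijOn.surjOn (show x ∈ Set.Icc 1 T.parts.sum from ⟨a.1, by omega⟩)
      rcases (hc c).mp a1 with rfl | a3
      · omega
      · exact ⟨c, a3, a2⟩
  · intro c a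
    by_cases e : c = (i + 1, j)
    · rw [e, update_self]
    · rw [update_of_ne e, T.zero_off c (by rw [hc]; tauto)]
  · intro k a b a1 a2 a3
    rw [hval _ a1, hval _ a2]
    exact T.row_lt _ _ _ (hsub _ a1) (hsub _ a2) a3
  · intro k a b a1 a2 a3
    rw [hval _ a1, hval _ a2]
    exact T.col_lt _ _ _ (hsub _ a1) (hsub _ a2) a3
  · ext c
    simp only [Set.mem_ofPred_eq]
    constructor
    · exact fun a => ⟨hsub c a, fun e => hne c a (h5 c (hsub c a) e)⟩
    · rintro ⟨a1, a2⟩
      rcases (hc c).mp a1 with rfl | a3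
      · exact absurd h4 a2
      · exact a3

lemma deg_rows (T : ShiftedSYT) : deg (rows T.parts) = {T' | IsChild T T'}.ncard := by
  rw [deg, ← Set.InjOn.ncard_image (f := fun T' : ShiftedSYT => rows T'.parts)
    (s := {T' | IsChild T T'}) (fun T₁ h1 T₂ h2 h => child_unique h1 h2 h)]
  congr 1
  ext s
  constructor
  · intro h
    obtain ⟨T', h1, h2⟩ := exists_child T h
    exact ⟨T', h1, h2⟩
  · rintro ⟨T', h1, rfl⟩
    exact IsChild.cov h1

lemma exists_child' (T : ShiftedSYT) : ∃ T', IsChild T T' := by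
  obtain ⟨T', h, -⟩ := exists_child T ⟨(T.sp.update_iff 0).mpr (Or.inl rfl), 0, rfl⟩
  exact ⟨T', h⟩

lemma root_child_unique {T T₁ T₂ : ShiftedSYT} (h : T.parts.sum = 0) (h1 : IsChild T T₁)
    (h2 : IsChild T T₂) : T₁ = T₂ := by
  have h0 : rows T.parts = stair 0 := by
    rcases hp : T.parts with _ | ⟨a, l⟩
    · funext i; simp [rows, stair]
    · have := T.parts_pos a (by simp [hp])
      simp [hp] at h
      omega
  have h3 := deg_rows T
  rw [h0, deg_stair, eq_comm, Set.ncard_eq_one] at h3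
  obtain ⟨a, ha⟩ := h3
  have e1 : T₁ ∈ ({a} : Set ShiftedSYT) := ha ▸ h1
  have e2 : T₂ ∈ ({a} : Set ShiftedSYT) := ha ▸ h2
  exact e1.trans e2.symm

theorem rigid (f : ShiftedSYT ≃ ShiftedSYT)
    (hf : ∀ T T', IsChild T T' → IsChild (f T) (f T') ∨ IsChild (f T') (f T)) (T : ShiftedSYT) :
    f T = T := by
  have ha : ∀ x, (f x).parts.sum = 0 → x.parts.sum = 0 := by
    intro x hx
    by_contra hc
    obtain ⟨p, hp⟩ := exists_parent x hc
    obtain ⟨c, hc'⟩ := exists_child' x
    have a1 : IsChild (f x) (f p) := (hf _ _ hp).resolve_left fun a => by have := a.1; omega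
    have a2 : IsChild (f x) (f c) := (hf _ _ hc').resolve_right fun a => by have := a.1; omega
    have a3 := f.injective (root_child_unique hx a1 a2)
    have := hp.1
    have := hc'.1
    rw [a3] at *
    omega
  have hroot : ∀ x, x.parts.sum = 0 → f x = x := by
    intro x hx
    have a1 := ha (f.symm x) (by rwa [f.apply_symm_apply])
    have a2 : f.symm x = x := root_unique a1 hx
    rw [← a2, f.apply_symm_apply, a2]
  have hb : ∀ n, ∀ S T : ShiftedSYT, S.parts.sum = n → IsChild S T → IsChild (f S) (f T) := by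
    intro n
    induction n with
    | zero =>
      intro S T h1 h2
      refine (hf _ _ h2).resolve_right fun a => ?_
      have := a.1
      rw [hroot S h1] at this
      omega
    | succ n ih =>
      intro S T h1 h2
      refine (hf _ _ h2).resolve_right fun a => ?_
      obtain ⟨P, hP⟩ := exists_parent S (by omega)
      have a1 := hP.1
      have a2 := f.injective (parent_unique (ih P S (by omega) hP) a)
      have a3 := h2.1
      rw [a2] at a1
      omega
  have hc : ∀ S T : ShiftedSYT, IsChild S T ↔ IsChild (f S) (f T) := by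
    intro S T
    refine ⟨hb _ S T rfl, fun h => ?_⟩
    have a1 : T.parts.sum ≠ 0 := fun e => by
      have := h.1
      rw [hroot T e] at this
      omega
    obtain ⟨P, hP⟩ := exists_parent T a1
    rwa [← f.injective (parent_unique (hb _ P T rfl hP) h)]
  have hdeg : ∀ S : ShiftedSYT, deg (rows S.parts) = deg (rows (f S).parts) := by
    intro S
    rw [deg_rows, deg_rows, ← Set.ncard_image_of_injective _ f.injective]
    congr 1
    ext T'
    constructor
    · rintro ⟨T, h, rfl⟩
      exact (hc _ _).mp h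
    · intro h
      exact ⟨f.symm T', (hc _ _).mpr (by rwa [f.apply_symm_apply]), f.apply_symm_apply _⟩
  have hR : IsBisim fun a b => ∃ S S' : ShiftedSYT, rows S.parts = a ∧ rows S'.parts = b ∧
      (f S = S' ∨ f S' = S) := by
    constructor
    · rintro _ _ ⟨S, S', rfl, rfl, h⟩
      exact ⟨S', S, rfl, rfl, h.symm⟩
    · rintro _ _ ⟨S, S', rfl, rfl, -⟩
      exact S.sp
    · rintro _ _ ⟨S, S', rfl, rfl, rfl | rfl⟩
      · exact hdeg _
      · exact (hdeg _).symm
    · rintro _ _ a' ⟨S, S', rfl, rfl, h⟩ h1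
      obtain ⟨C, h2, rfl⟩ := exists_child S h1
      rcases h with rfl | rfl
      · exact ⟨_, ((hc _ _).mp h2).cov, C, f C, rfl, rfl, Or.inl rfl⟩
      · exact ⟨_, ((hc _ _).mpr (by rwa [f.apply_symm_apply])).cov, C, f.symm C, rfl, rfl,
          Or.inr (f.apply_symm_apply _)⟩
  have hfin : ∀ n, ∀ T : ShiftedSYT, T.parts.sum = n → f T = T := by
    intro n
    induction n with
    | zero => exact hroot
    | succ n ih =>
      intro T h
      obtain ⟨P, hP⟩ := exists_parent T (by omega)
      have a1 := (hc _ _).mp hP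
      rw [ih P (by have := hP.1; omega)] at a1
      exact child_unique a1 hP (hR.eq ⟨_, _, rfl, rfl, Or.inr rfl⟩)
  exact hfin _ T rfl

end Pool.Agent.MP_c76eb3_co
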